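import Pool.Agent.H7.JB.Stmts

/-!
Board jb14 (MP_fd41b2_co), row NDC, helper38: the debt changes little.
-/

set_option autoImplicit false

open Finset

namespace Pool.JB7

open Pool.Agent.H23.KT Pool.Agent.H46.KW Pool.KQ Pool.GT7 Pool.GU7 Pool.HZ7

namespace NDCh

lemma card_diff {V : Type} [DecidableEq V] (G : SimpleGraph V) (X X' : Finset V) (q : ℕ) :
    (clq G X (q + 1) \ clq G X' (q + 1)).card ≤ (X \ X').card * X.card ^ q := by
  classical
  have h : clq G X (q + 1) \ clq G X' (q + 1) ⊆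
      ((X \ X') ×ˢ X.powersetCard q).image (fun u => insert u.1 u.2) := by
    intro L hL
    rw [mem_sdiff, mem_clq, mem_clq] at hL
    obtain ⟨⟨h1, h2, h3⟩, h4⟩ := hL
    have h5 : ¬ L ⊆ X' := fun h => h4 ⟨h, h2, h3⟩
    obtain ⟨u, hu, hu'⟩ := not_subset.1 h5
    rw [mem_image]
    refine ⟨(u, L.erase u), ?_, insert_erase hu⟩
    rw [mem_product, mem_sdiff, mem_powersetCard]
    refine ⟨⟨h1 hu, hu'⟩, (erase_subset _ _).trans h1, ?_⟩
    rw [card_erase_of_mem hu, h2, Nat.add_sub_cancel]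
  refine (card_le_card h).trans (card_image_le.trans ?_)
  rw [card_product, card_powersetCard]
  exact Nat.mul_le_mul_left _ (Nat.choose_le_pow _ _)

lemma max_step (A A' K : ℝ) (hK : 0 ≤ K) (h : A' ≤ A + K) : max 0 A' ≤ max 0 A + K := by
  have h1 := le_max_left 0 A
  have h2 := le_max_right 0 A
  exact max_le (by linarith) (by linarith)

end NDCh

theorem ndc_thm (hG : GCO0Stmt) : NDCStmt := by
  intro p r hp C' hC'
  have hr1 : 1 ≤ r := by
    have := hp.gr
    omega
  obtain ⟨hw, -⟩ := hG p 0 r ⟨Nat.zero_le _, hr1, hp.rp⟩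
  have hrp : (r : ℝ) ≤ p := by exact_mod_cast hp.rp
  have hφ : 0 ≤ ph p r := by
    unfold ph
    exact div_nonneg (by linarith) (by positivity)
  have hB0 : 0 ≤ ((p : ℝ) + 2) * ph p r * (C' * (2 * ((p : ℝ) + 3)) ^ (p + 2)) := by positivity
  refine ⟨((p : ℝ) + 2) * ph p r * (C' * (2 * ((p : ℝ) + 3)) ^ (p + 2)) + 1, by linarith, ?_⟩
  intro a ha V _ G P P' z hPP hcard hdiff hL
  have ha0 : (0 : ℝ) < a := by exact_mod_cast ha
  have hsub : un P' ⊆ un P := by
    unfold un
    exact biUnion_mono fun i _ => hPP i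
  have hX : ((un P).card : ℝ) ≤ 2 * ((p : ℝ) + 3) * a := by
    have h1 : (un P).card ≤ ∑ i, (P i).card := card_biUnion_le
    have h2 : ∑ i, (P i).card ≤ ∑ _i : Fin (p + 3), 2 * a := sum_le_sum fun i _ => hcard i
    rw [sum_const, card_univ, Fintype.card_fin, smul_eq_mul] at h2
    have h3 : ((un P).card : ℝ) ≤ (((p + 3) * (2 * a) : ℕ) : ℝ) := by exact_mod_cast h1.trans h2
    push_cast at h3
    linarith
  have hn : ((nb G (un P') z).card : ℝ) ≤ (nb G (un P) z).card := by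
    have : nb G (un P') z ⊆ nb G (un P) z := by
      intro y hy
      rw [mem_nb] at hy ⊢
      exact ⟨hsub hy.1, hy.2⟩
    exact_mod_cast card_le_card this
  have hT : TZ G p r (un P) z - TZ G p r (un P') z ≤
      C' * (2 * ((p : ℝ) + 3) * a) ^ (p + 2) := by
    have hsubc : clq G (un P') (p + 3) ⊆ clq G (un P) (p + 3) := by
      intro L hL'
      rw [mem_clq] at hL' ⊢
      exact ⟨hL'.1.trans hsub, hL'.2⟩
    unfold TZ
    rw [← sum_sdiff hsubc, add_sub_cancel_right]
    calc ∑ L ∈ clq G (un P) (p + 3) \ clq G (un P') (p + 3), ww p r (nb G L z).card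
        ≤ ∑ _L ∈ clq G (un P) (p + 3) \ clq G (un P') (p + 3), (1 : ℝ) :=
          sum_le_sum fun L hL' => (hw _ (hL L (mem_sdiff.1 hL').1)).2.1
      _ = ((clq G (un P) (p + 3) \ clq G (un P') (p + 3)).card : ℝ) := by
          rw [sum_const, nsmul_eq_mul, mul_one]
      _ ≤ ((un P \ un P').card : ℝ) * ((un P).card : ℝ) ^ (p + 2) := by
          exact_mod_cast NDCh.card_diff G (un P) (un P') (p + 2)
      _ ≤ C' * (2 * ((p : ℝ) + 3) * a) ^ (p + 2) :=
          mul_le_mul hdiff (pow_le_pow_left₀ (Nat.cast_nonneg _) hX _) (by positivity) hC'.le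
  have hM : 0 ≤ Mz p r a := by
    unfold Mz
    positivity
  have hMT : Mz p r a * (TZ G p r (un P) z - TZ G p r (un P') z) ≤
      ((p : ℝ) + 2) * ph p r * (C' * (2 * ((p : ℝ) + 3)) ^ (p + 2)) := by
    refine (mul_le_mul_of_nonneg_left hT hM).trans_eq ?_
    unfold Mz
    rw [mul_pow (2 * ((p : ℝ) + 3)) (a : ℝ) (p + 2), show p + 3 = (p + 2) + 1 from rfl,
      pow_succ (a : ℝ) (p + 2)]
    field_simp
  unfold ndz
  apply NDCh.max_step _ _ _ (by linarith)
  linarith

end Pool.JB7
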